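import Pool.Agent.ESM.Main

/-!
# MP_8a44e3_lc: egalitarian stable matchings in linear time on a unit cost random access machine

The statement only uses the definitions in `Pool/Agent/ESM/Defs.lean`.
-/

set_option autoImplicit false

namespace Pool.Agent.Results.MP_8a44e3_lc.UniformCostLinear

open Pool.Agent.ESM

/-- One program finds an egalitarian stable matching of every instance in `O(n + m)` steps. -/
theorem result : ∃ (P : Cmd) (C : ℕ), ∀ I : Inst,
    P.cost I.input ≤ C * (I.n1 + I.n2 + I.m + 1) ∧
    (1 ≤ I.m → (∀ i < I.n1, I.ml i ≠ []) → (∀ j < I.n2, I.wl j ≠ []) →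
      P.cost I.input ≤ C * I.m) ∧
    I.Egal (I.out (P.run I.input)) :=
  final

end Pool.Agent.Results.MP_8a44e3_lc.UniformCostLinear
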